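import Pool.Agent.L5helper36.Radon.Final

/-! The affine hull of the pairs (Radon vector, primitive Radon vector). -/

namespace Pool.Agent.Results.MP_620441_co.AffineHull

open Pool.Agent.L5helper36.Radon

/-- For all `d ≥ 1` and `s ≥ d + 2` the affine hull of `V(s, d)` is exactly the set of solutions
of the system `Relations s d` of linear equations. -/
theorem result (d s : ℕ) (hd : 1 ≤ d) (hs : d + 2 ≤ s) :
    (affineSpan ℝ (V s d) : Set ((Fin (s / 2) → ℝ) × (Fin (d / 2 + 1) → ℝ))) =
      {v | Relations s d v} :=
  affineSpan_V hd hs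

end Pool.Agent.Results.MP_620441_co.AffineHull
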